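import Pool.Agent.H958.RL.Stm

/-! Choice of the parameters (task RL-Num1). -/

set_option autoImplicit false

namespace Pool.Agent.H52.RL.Num1

open Filter Topology
open Pool.Agent.H958.RL

theorem tend_pow (k : ℕ) (s : ℝ) (hs : 0 < s) :
    Tendsto (fun c : ℝ => c ^ k * Real.exp (-(s * c))) atTop (𝓝 0) := by
  have h1 : Tendsto (fun c : ℝ => s * c) atTop atTop := tendsto_id.const_mul_atTop hs
  have h2 := (Real.tendsto_pow_mul_exp_neg_atTop_nhds_zero k).comp h1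
  have h3 := h2.const_mul ((s⁻¹) ^ k)
  rw [mul_zero] at h3
  refine h3.congr fun c => ?_
  show (s⁻¹) ^ k * ((s * c) ^ k * Real.exp (-(s * c))) = _
  rw [← mul_assoc, ← mul_pow, ← mul_assoc, inv_mul_cancel₀ hs.ne', one_mul]

/-- the conditions on `c` -/
theorem condC (ε : ℝ) (h0 : 0 < ε) : ∃ c0 : ℝ, 1 ≤ c0 ∧ ∀ c : ℝ, c0 ≤ c →
    401 ≤ ε / 40 * c ∧ Real.exp (-(ε / 4 * c)) ≤ 1 / 16 ∧
    c ^ 2 * Real.exp (-(ε / 4 * c)) ≤ 1 / 10 ∧ 768 ≤ (ε / 40) ^ 5 * c ∧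
    c ^ 3 * Real.exp (-(1 / 8 * c)) ≤ ε / 40 ∧ 4896 ≤ Real.exp (ε / 2 * c - 2) ∧
    2 ≤ Real.exp (c / 2) := by
  have e1 : ∀ᶠ c : ℝ in atTop, 401 ≤ ε / 40 * c :=
    (tendsto_id.const_mul_atTop (by positivity : 0 < ε / 40)).eventually_ge_atTop _
  have e2 : ∀ᶠ c : ℝ in atTop, c ^ 0 * Real.exp (-(ε / 4 * c)) < 1 / 16 :=
    (tend_pow 0 (ε / 4) (by positivity)).eventually (gt_mem_nhds (by norm_num))
  have e3 : ∀ᶠ c : ℝ in atTop, c ^ 2 * Real.exp (-(ε / 4 * c)) < 1 / 10 :=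
    (tend_pow 2 (ε / 4) (by positivity)).eventually (gt_mem_nhds (by norm_num))
  have e4 : ∀ᶠ c : ℝ in atTop, 768 ≤ (ε / 40) ^ 5 * c :=
    (tendsto_id.const_mul_atTop (by positivity : 0 < (ε / 40) ^ 5)).eventually_ge_atTop _
  have e5 : ∀ᶠ c : ℝ in atTop, c ^ 3 * Real.exp (-(1 / 8 * c)) < ε / 40 :=
    (tend_pow 3 (1 / 8) (by positivity)).eventually (gt_mem_nhds (by positivity))
  have e6 : ∀ᶠ c : ℝ in atTop, 4896 ≤ Real.exp (ε / 2 * c - 2) := by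
    have h1 : Tendsto (fun c : ℝ => ε / 2 * c - 2) atTop atTop :=
      tendsto_atTop_add_const_right _ _ (tendsto_id.const_mul_atTop (by positivity : 0 < ε / 2))
    exact (Real.tendsto_exp_atTop.comp h1).eventually_ge_atTop _
  have e7 : ∀ᶠ c : ℝ in atTop, 2 ≤ Real.exp (c / 2) := by
    have h1 : Tendsto (fun c : ℝ => c / 2) atTop atTop :=
      tendsto_id.atTop_div_const (by norm_num)
    exact (Real.tendsto_exp_atTop.comp h1).eventually_ge_atTop _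
  obtain ⟨c0, hc0⟩ := eventually_atTop.1
    (e1.and (e2.and (e3.and (e4.and (e5.and (e6.and e7))))))
  refine ⟨max c0 1, le_max_right _ _, fun c hc => ?_⟩
  obtain ⟨a1, a2, a3, a4, a5, a6, a7⟩ := hc0 c ((le_max_left _ _).trans hc)
  rw [pow_zero, one_mul] at a2
  exact ⟨a1, a2.le, a3.le, a4, a5.le, a6, a7⟩

/-- the conditions on `n` -/
theorem condN (ε : ℝ) (h0 : 0 < ε) : ∃ N0 : ℕ, ∀ n : ℕ, N0 ≤ n →
    10 ≤ (n : ℝ) ∧ 2 ≤ (n : ℝ) ^ (3 / 8 : ℝ) ∧ 68 ≤ (n : ℝ) ^ (3 * ε / 4) ∧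
    Real.log n ≤ ε / 40 * n := by
  have e1 : ∀ᶠ x : ℝ in atTop, 10 ≤ x := eventually_ge_atTop _
  have e2 : ∀ᶠ x : ℝ in atTop, 2 ≤ x ^ (3 / 8 : ℝ) :=
    (tendsto_rpow_atTop (by norm_num)).eventually_ge_atTop _
  have e3 : ∀ᶠ x : ℝ in atTop, 68 ≤ x ^ (3 * ε / 4) :=
    (tendsto_rpow_atTop (by positivity)).eventually_ge_atTop _
  have e4 : ∀ᶠ x : ℝ in atTop, ‖Real.log x‖ ≤ ε / 40 * ‖x‖ :=
    Real.isLittleO_log_id_atTop.def (by positivity)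
  have e5 := tendsto_natCast_atTop_atTop (R := ℝ) |>.eventually (e1.and (e2.and (e3.and e4)))
  obtain ⟨N0, hN0⟩ := eventually_atTop.1 e5
  refine ⟨N0, fun n hn => ?_⟩
  obtain ⟨a1, a2, a3, a4⟩ := hN0 n hn
  refine ⟨a1, a2, a3, ?_⟩
  have h1 : ‖(n : ℝ)‖ = n := by rw [Real.norm_eq_abs, Nat.abs_cast]
  rw [h1] at a4
  exact (le_abs_self _).trans a4

/-- the binomial coefficient -/
theorem choose_le (a b : ℕ) (c y : ℝ) (hb : 1 ≤ b) (h : (a : ℝ) ≤ 34 * y * b) (hy0 : 0 ≤ y)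
    (hy : y ≤ Real.exp c) : (a.choose b : ℝ) ≤ Real.exp (b * (5 + c)) := by
  have hbR : (0 : ℝ) < b := by exact_mod_cast hb
  have h1 : (a.choose b : ℝ) ≤ (a : ℝ) ^ b / (b.factorial : ℝ) := Nat.choose_le_pow_div b a
  have h2 : (a : ℝ) ^ b / (b.factorial : ℝ) ≤ (34 * y * b) ^ b / (b.factorial : ℝ) := by
    gcongr
  have h3 : (34 * y * b) ^ b / (b.factorial : ℝ) =
      (34 * y) ^ b * ((b : ℝ) ^ b / (b.factorial : ℝ)) := by
    rw [mul_pow]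
    ring
  have h4 : (b : ℝ) ^ b / (b.factorial : ℝ) ≤ Real.exp b :=
    Real.pow_div_factorial_le_exp (b : ℝ) hbR.le b
  have h5 : 34 * y ≤ Real.exp (4 + c) := by
    rw [Real.exp_add]
    have h6 : (34 : ℝ) ≤ Real.exp 4 := by
      have h7 : Real.exp 4 = Real.exp 1 ^ 4 := by
        rw [← Real.exp_nat_mul]
        norm_num
      rw [h7]
      have h8 := Real.exp_one_gt_d9
      have h9 : (2.7 : ℝ) ≤ Real.exp 1 := by linarith
      calc (34 : ℝ) ≤ 2.7 ^ 4 := by norm_num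
        _ ≤ Real.exp 1 ^ 4 := pow_le_pow_left₀ (by norm_num) h9 4
    exact mul_le_mul h6 hy hy0 (Real.exp_pos _).le
  have h6 : (34 * y) ^ b ≤ Real.exp (4 + c) ^ b := pow_le_pow_left₀ (by positivity) h5 b
  calc (a.choose b : ℝ) ≤ (34 * y) ^ b * ((b : ℝ) ^ b / (b.factorial : ℝ)) := by
        rw [← h3]; exact h1.trans h2
    _ ≤ Real.exp (4 + c) ^ b * Real.exp b :=
        mul_le_mul h6 h4 (by positivity) (by positivity)
    _ = Real.exp (b * (5 + c)) := by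
        rw [← Real.exp_nat_mul, ← Real.exp_add]
        congr 1
        ring

theorem A1 {ε c l : ℝ} (h0 : 0 < ε) (h1 : ε ≤ 1 / 2) (hc : 0 < c) (hl : 0 ≤ l)
    (h : c ≤ (1 - ε) * l) : c ≤ l ∧ l * (7 / 8) ≤ l + -(ε / 4 * c) ∧
    l * ε + (1 - ε) * c ≤ l + -(ε / 4 * c) := by
  have e1 : 0 ≤ ε * l := by positivity
  have e2 : c ≤ l := by linarith
  have e3 : ε / 4 * c ≤ 1 / 8 * l := mul_le_mul (by linarith) e2 hc.le (by norm_num)
  refine ⟨e2, by linarith, ?_⟩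
  have e4 : (1 - 3 * ε / 4) * c ≤ 1 * ((1 - ε) * l) :=
    mul_le_mul (by linarith) h hc.le (by norm_num)
  linarith

theorem A2 {ε c : ℝ} (h1 : ε ≤ 1 / 2) (hc : 0 < c) : c / 2 ≤ (1 - ε) * c := by
  have : 0 ≤ (1 / 2 - ε) * c := mul_nonneg (by linarith) hc.le
  linarith

theorem A3 {w s φ : ℝ} (h1 : (w - 1) ^ 2 / 6 ≤ s) (h2 : s < φ + 1) (hw : 401 ≤ w) :
    w ^ 2 / 16 ≤ φ := by
  nlinarith [mul_nonneg (by linarith : (0 : ℝ) ≤ w - 401) (by linarith : (0 : ℝ) ≤ w)]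

theorem A4 {c t : ℝ} (hc : 1 ≤ c) (ht : 768 ≤ t) : 2 * c + 10 ≤ t * c / 64 := by
  have : 768 * c ≤ t * c := mul_le_mul_of_nonneg_right ht (by linarith)
  linarith

theorem A5 {a K b : ℝ} (h : a < 17 * K * (b + 1)) (hb : 1 ≤ b) (hK : 1 ≤ K) :
    a ≤ 34 * K * b := by
  have : K * 1 ≤ K * b := mul_le_mul_of_nonneg_left hb (by linarith)
  linarith

theorem A6 {u w r : ℝ} (h1 : r ≤ u / 2) (hu : 0 ≤ u) (huw : u ≤ w) : u * r ≤ w ^ 2 / 2 := by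
  have e1 : u * r ≤ u * (u / 2) := mul_le_mul_of_nonneg_left h1 hu
  have e2 : u ^ 2 ≤ w ^ 2 := pow_le_pow_left₀ hu huw 2
  linarith

theorem A7 {ε c ρ q t : ℝ} (h1 : ε ≤ 1 / 2) (hc : 0 < c) (hρ : ρ = Real.exp (-(ε / 4 * c)))
    (hq : q = Real.exp ((1 - ε) * c)) (ht : t = c ^ 3) :
    (c * ρ) * (c ^ 2 * Real.exp (c / 2)) ≤ q * (t * Real.exp (-(1 / 8 * c))) := by
  have e3 : ρ * Real.exp (c / 2) ≤ q * Real.exp (-(1 / 8 * c)) := by
    rw [hρ, hq, ← Real.exp_add, ← Real.exp_add, Real.exp_le_exp]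
    have : 0 ≤ (1 / 2 - ε) * c := mul_nonneg (by linarith) hc.le
    linarith
  have e4 := mul_le_mul_of_nonneg_left e3 (by positivity : 0 ≤ c ^ 3)
  calc (c * ρ) * (c ^ 2 * Real.exp (c / 2)) = c ^ 3 * (ρ * Real.exp (c / 2)) := by ring
    _ ≤ c ^ 3 * (q * Real.exp (-(1 / 8 * c))) := e4
    _ = q * (t * Real.exp (-(1 / 8 * c))) := by rw [ht]; ring

/-- the condition on `p (b φ) g ^ J` -/
theorem A8 {ε c ρ q p b φ G : ℝ} (h1 : ε ≤ 1 / 2) (hc : 0 < c)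
    (hρ : ρ = Real.exp (-(ε / 4 * c))) (hq : q = Real.exp ((1 - ε) * c)) (hq0 : 0 < q)
    (hφ0 : 0 ≤ φ) (hG0 : 0 ≤ G)
    (hpb1 : p * b * q ≤ c * ρ) (hφ5 : φ ≤ c ^ 2) (hg2 : G ≤ Real.exp (c / 2))
    (C5 : c ^ 3 * Real.exp (-(1 / 8 * c)) ≤ ε / 40) : p * (b * φ * G) ≤ ε / 40 := by
  have hρ0 : 0 < ρ := by rw [hρ]; exact Real.exp_pos _
  have e1 : (p * b) * q * (φ * G) ≤ (c * ρ) * (c ^ 2 * Real.exp (c / 2)) := by
    refine mul_le_mul hpb1 ?_ (by positivity) (by positivity)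
    exact mul_le_mul hφ5 hg2 hG0 (by positivity)
  have e2 := A7 h1 hc hρ hq rfl
  have e5 : q * (p * (b * φ * G)) ≤ q * (ε / 40) := by
    calc q * (p * (b * φ * G)) = (p * b) * q * (φ * G) := by ring
      _ ≤ (c * ρ) * (c ^ 2 * Real.exp (c / 2)) := e1
      _ ≤ q * (c ^ 3 * Real.exp (-(1 / 8 * c))) := e2
      _ ≤ q * (ε / 40) := mul_le_mul_of_nonneg_left C5 hq0.le
  exact le_of_mul_le_mul_left e5 hq0

/-- the condition on `p N ^ 2` -/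
theorem A9 {ε c ρ q p b φ G N : ℝ} (hc1 : 1 ≤ c)
    (hρ : ρ = Real.exp (-(ε / 4 * c))) (hq : q = Real.exp ((1 - ε) * c)) (hq0 : 0 < q)
    (hp0 : 0 < p) (hb0 : 0 ≤ b) (hφ : 1 ≤ φ) (hG0 : 0 ≤ G)
    (hN4 : b * φ * G / 2 ≤ N) (hpb2 : c * ρ ≤ 68 * (p * b) * q)
    (hg1 : Real.exp ((1 - ε / 4) * c - 2) ≤ G ^ 2)
    (C6 : 4896 ≤ Real.exp (ε / 2 * c - 2)) : b * (3 * c + 15) ≤ p * N ^ 2 := by
  have hc : 0 < c := by linarith
  have e1 : (b * φ * G / 2) ^ 2 ≤ N ^ 2 := pow_le_pow_left₀ (by positivity) hN4 2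
  have e2 : p * (b * φ * G / 2) ^ 2 ≤ p * N ^ 2 := mul_le_mul_of_nonneg_left e1 hp0.le
  refine le_trans ?_ e2
  have e3 : p * (b * φ * G / 2) ^ 2 = b * ((p * b) * φ ^ 2 * G ^ 2 / 4) := by ring
  rw [e3]
  refine mul_le_mul_of_nonneg_left ?_ hb0
  have e4 : 1 ≤ φ ^ 2 := one_le_pow₀ hφ
  have e5 : (p * b) * G ^ 2 ≤ (p * b) * φ ^ 2 * G ^ 2 := by
    have e6 : 0 ≤ (p * b) * G ^ 2 := by positivity
    have e7 := mul_le_mul_of_nonneg_left e4 e6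
    linarith
  have e6 : (p * b) * Real.exp ((1 - ε / 4) * c - 2) ≤ (p * b) * G ^ 2 :=
    mul_le_mul_of_nonneg_left hg1 (by positivity)
  have e7 : c * 4896 ≤ 68 * ((p * b) * Real.exp ((1 - ε / 4) * c - 2)) := by
    have e8 : q * (c * Real.exp (ε / 2 * c - 2)) ≤
        q * (68 * ((p * b) * Real.exp ((1 - ε / 4) * c - 2))) := by
      have e9 : q * (c * Real.exp (ε / 2 * c - 2)) =
          (c * ρ) * Real.exp ((1 - ε / 4) * c - 2) := by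
        have e10 : q * Real.exp (ε / 2 * c - 2) = ρ * Real.exp ((1 - ε / 4) * c - 2) := by
          rw [hρ, hq, ← Real.exp_add, ← Real.exp_add]
          congr 1
          ring
        calc q * (c * Real.exp (ε / 2 * c - 2)) = c * (q * Real.exp (ε / 2 * c - 2)) := by ring
          _ = c * (ρ * Real.exp ((1 - ε / 4) * c - 2)) := by rw [e10]
          _ = (c * ρ) * Real.exp ((1 - ε / 4) * c - 2) := by ring
      rw [e9]
      have e11 := mul_le_mul_of_nonneg_right hpb2 (Real.exp_pos ((1 - ε / 4) * c - 2)).le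
      linarith
    have e12 := le_of_mul_le_mul_left e8 hq0
    have e13 := mul_le_mul_of_nonneg_left C6 hc.le
    linarith
  linarith

/-- the condition on `η ^ 2 (L p b φ) / 4` -/
theorem A10 {ε c w Lp b φ : ℝ} (h0 : 0 < ε) (hc1 : 1 ≤ c) (hb0 : 0 ≤ b) (hφ0 : 0 ≤ φ)
    (hw : w = ε / 40 * c) (hLp1 : ε / 40 ≤ Lp) (hφ3 : w ^ 2 / 16 ≤ φ)
    (C4 : 768 ≤ (ε / 40) ^ 5 * c) :
    b * (2 * c + 10) ≤ (ε / 40) ^ 2 * (Lp * (b * φ)) / 4 := by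
  have e1 : (ε / 40) * (b * φ) ≤ Lp * (b * φ) :=
    mul_le_mul_of_nonneg_right hLp1 (by positivity)
  have e2 : (ε / 40) ^ 2 * ((ε / 40) * (b * φ)) / 4 ≤ (ε / 40) ^ 2 * (Lp * (b * φ)) / 4 := by
    have := mul_le_mul_of_nonneg_left e1 (by positivity : 0 ≤ (ε / 40) ^ 2)
    linarith
  refine le_trans ?_ e2
  have e3 : (ε / 40) ^ 2 * ((ε / 40) * (b * (w ^ 2 / 16))) / 4 ≤
      (ε / 40) ^ 2 * ((ε / 40) * (b * φ)) / 4 := by
    have := mul_le_mul_of_nonneg_left hφ3 (by positivity : 0 ≤ (ε / 40) ^ 2 * (ε / 40) * b)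
    linarith
  refine le_trans ?_ e3
  have e4 : (ε / 40) ^ 2 * ((ε / 40) * (b * (w ^ 2 / 16))) / 4 =
      b * (((ε / 40) ^ 5 * c) * c / 64) := by
    rw [hw]
    ring
  rw [e4]
  exact mul_le_mul_of_nonneg_left (A4 hc1 C4) hb0

/-- `p b q ≤ c ρ` -/
theorem A11 {c ρ q p b K a : ℝ} (hp0 : 0 < p) (hb0 : 0 ≤ b) (hK0 : 0 ≤ K)
    (hb1 : 17 * K * b ≤ a) (hpa : p * a ≤ c * ρ) (hK3 : q / 2 ≤ K) : p * b * q ≤ c * ρ := by
  have e1 : p * (17 * K * b) ≤ c * ρ := (mul_le_mul_of_nonneg_left hb1 hp0.le).trans hpa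
  have e2 : p * b * q ≤ p * b * (2 * K) := mul_le_mul_of_nonneg_left (by linarith) (by positivity)
  have e3 : 0 ≤ p * b * K := by positivity
  linarith

/-- `c ρ ≤ 68 p b q` -/
theorem A12 {c ρ q p b K a x : ℝ} (hp0 : 0 < p) (hb0 : 0 ≤ b) (hpx : p * x = c)
    (ha3 : x * ρ / 2 ≤ a) (hb6 : a ≤ 34 * K * b) (hK1 : K ≤ q) :
    c * ρ ≤ 68 * (p * b) * q := by
  have e1 : p * (x * ρ / 2) ≤ p * (34 * K * b) :=
    mul_le_mul_of_nonneg_left (ha3.trans hb6) hp0.le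
  have e2 : (p * b) * K ≤ (p * b) * q := mul_le_mul_of_nonneg_left hK1 (by positivity)
  have e3 : p * (x * ρ / 2) = c * ρ / 2 := by
    rw [← hpx]
    ring
  rw [e3] at e1
  linarith

/-- the facts on `u = d p` -/
theorem A13 {ε c x d p w u : ℝ} (hp0 : 0 < p) (hp1 : p ≤ 1) (hpx : p * x = c)
    (hd1 : d ≤ ε / 40 * x) (hd2 : ε / 40 * x < d + 1) (hu : u = d * p) (hw : w = ε / 40 * c) :
    u ≤ w ∧ w - 1 ≤ u := by
  have e1 := mul_le_mul_of_nonneg_right hd1 hp0.le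
  have e2 := mul_lt_mul_of_pos_right hd2 hp0
  have e3 : ε / 40 * x * p = w := by rw [hw, ← hpx]; ring
  rw [e3] at e1 e2
  rw [hu]
  constructor
  · exact e1
  · have e4 : (d + 1) * p = d * p + p := by ring
    rw [e4] at e2
    linarith

theorem A14 {c ρ u w r p a : ℝ} (hc0 : 0 ≤ c) (hρ0 : 0 ≤ ρ) (hr0 : 0 ≤ r)
    (hpa : p * a ≤ c * ρ) (hr1 : r ≤ u / 2)
    (hu0 : 0 ≤ u) (hu1 : u ≤ w) (hwc : w ≤ c) (C3 : c ^ 2 * ρ ≤ 1 / 10) :
    p * (r * a) ≤ 1 / 10 := by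
  have e1 : p * (r * a) = (p * a) * r := by ring
  have e2 : (p * a) * r ≤ (c * ρ) * (u / 2) := by
    refine (mul_le_mul_of_nonneg_right hpa hr0).trans ?_
    exact mul_le_mul_of_nonneg_left hr1 (by positivity)
  have e4 : u / 2 ≤ c := by linarith
  have e5 := mul_le_mul_of_nonneg_left e4 (by positivity : 0 ≤ c * ρ)
  have e6 : c * ρ * c = c ^ 2 * ρ := by ring
  rw [e1]
  linarith

theorem A15 {xe q K b a xr : ℝ} (hq0 : 0 < q) (hb0 : 0 ≤ b) (hK1 : K ≤ q)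
    (H2 : xe * q ≤ xr) (ha3 : xr / 2 ≤ a) (hb2 : a < 17 * K * (b + 1)) : xe / 34 ≤ b + 1 := by
  have e1 : K * (b + 1) ≤ q * (b + 1) := mul_le_mul_of_nonneg_right hK1 (by linarith)
  have e3 : q * (xe / 34) ≤ q * (b + 1) := by linarith
  exact le_of_mul_le_mul_left e3 hq0

theorem A16 {x y z : ℝ} (hx : 0 < x) (h : 68 ≤ y) (hz : x * y / 68 ≤ z) : x ≤ z := by
  have : x * 68 ≤ x * y := mul_le_mul_of_nonneg_left h hx.le
  linarith

theorem main (hG : S_NUMG) : S_NUM1 := by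
  intro ε h0 h1
  obtain ⟨c0, hc01, hC⟩ := condC ε h0
  obtain ⟨N0, hN⟩ := condN ε h0
  refine ⟨c0, ε / 40, hc01, by positivity, by linarith, N0, fun n hn c hc hcn => ?_⟩
  obtain ⟨C1, C2, C3, C4, C5, C6, C7⟩ := hC c hc
  obtain ⟨D1, D2, D3, D4⟩ := hN n hn
  have hc1 : 1 ≤ c := hc01.trans hc
  have hc : 0 < c := by linarith only [hc1]
  obtain ⟨x, hx⟩ : ∃ x : ℝ, x = (n : ℝ) := ⟨_, rfl⟩
  rw [← hx] at D1 D2 D3 D4 hcn ⊢
  have hx0 : 0 < x := by linarith only [D1]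
  have hx1 : 1 ≤ x := by linarith only [D1]
  have hlog : 0 ≤ Real.log x := Real.log_nonneg hx1
  obtain ⟨hcl, E1, E2⟩ := A1 h0 h1 hc hlog hcn
  have hcx : c ≤ ε / 40 * x := hcl.trans D4
  have hcx1 : c ≤ x := hcx.trans (mul_le_of_le_one_left hx0.le (by linarith only [h1]))
  -- the exponentials
  obtain ⟨ρ, hρ⟩ : ∃ ρ : ℝ, ρ = Real.exp (-(ε / 4 * c)) := ⟨_, rfl⟩
  obtain ⟨q, hq⟩ : ∃ q : ℝ, q = Real.exp ((1 - ε) * c) := ⟨_, rfl⟩
  rw [← hρ] at C2 C3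
  have hρ0 : 0 < ρ := by rw [hρ]; exact Real.exp_pos _
  have hq0 : 0 < q := by rw [hq]; exact Real.exp_pos _
  have hxe : x = Real.exp (Real.log x) := (Real.exp_log hx0).symm
  have exr : x * ρ = Real.exp (Real.log x + -(ε / 4 * c)) := by
    rw [Real.exp_add, ← hxe, hρ]
  have H1 : x ^ (7 / 8 : ℝ) ≤ x * ρ := by
    rw [exr, Real.rpow_def_of_pos hx0, Real.exp_le_exp]
    exact E1
  have H2 : x ^ ε * q ≤ x * ρ := by
    have e2 : x ^ ε * q = Real.exp (Real.log x * ε + (1 - ε) * c) := by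
      rw [Real.rpow_def_of_pos hx0, hq, ← Real.exp_add]
    rw [exr, e2, Real.exp_le_exp]
    exact E2
  have hq2 : 2 ≤ q := by
    refine C7.trans ?_
    rw [hq, Real.exp_le_exp]
    exact A2 h1 hc
  -- `a`
  obtain ⟨a, ha⟩ : ∃ a : ℕ, a = ⌊x * ρ⌋₊ := ⟨_, rfl⟩
  have ha1 : (a : ℝ) ≤ x * ρ := by rw [ha]; exact Nat.floor_le (by positivity)
  have ha2 : x * ρ < a + 1 := by rw [ha]; exact Nat.lt_floor_add_one _
  have h78 : x ^ (7 / 8 : ℝ) = x ^ (1 / 2 : ℝ) * x ^ (3 / 8 : ℝ) := by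
    rw [← Real.rpow_add hx0]
    norm_num
  have hx12 : 1 ≤ x ^ (1 / 2 : ℝ) := Real.one_le_rpow hx1 (by norm_num)
  have H3 : x ^ (1 / 2 : ℝ) * 2 ≤ x * ρ := by
    refine le_trans ?_ H1
    rw [h78]
    exact mul_le_mul_of_nonneg_left D2 (by linarith only [hx12])
  have ha3 : x * ρ / 2 ≤ a := by linarith only [ha2, H3, hx12]
  have ha4 : x ^ (1 / 2 : ℝ) ≤ a := by linarith only [ha3, H3]
  have ha5 : (1 : ℝ) ≤ a := by linarith only [ha4, hx12]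
  have ha6 : (a : ℝ) ≤ x / 16 := by
    have := mul_le_mul_of_nonneg_left C2 hx0.le
    linarith only [this, ha1]
  -- `K`
  obtain ⟨K, hK⟩ : ∃ K : ℕ, K = ⌊q⌋₊ := ⟨_, rfl⟩
  have hK1 : (K : ℝ) ≤ q := by rw [hK]; exact Nat.floor_le hq0.le
  have hK2 : q < K + 1 := by rw [hK]; exact Nat.lt_floor_add_one _
  have hK3 : q / 2 ≤ K := by linarith only [hK2, hq2]
  have hK4 : (1 : ℝ) ≤ K := by linarith only [hK3, hq2]
  have hK5 : 1 ≤ K := by exact_mod_cast hK4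
  -- `b`
  obtain ⟨b, hb⟩ : ∃ b : ℕ, b = a / (17 * K) := ⟨_, rfl⟩
  have hb1 : 17 * K * b ≤ a := by rw [hb]; exact Nat.mul_div_le _ _
  have hb2 : a < 17 * K * (b + 1) := by
    rw [hb]
    exact Nat.lt_mul_div_succ a (by omega)
  have hb1R : 17 * (K : ℝ) * b ≤ a := by exact_mod_cast hb1
  have hb2R : (a : ℝ) < 17 * K * (b + 1) := by exact_mod_cast hb2
  have hxε : 68 ≤ x ^ ε := by
    refine D3.trans (Real.rpow_le_rpow_of_exponent_le hx1 (by linarith only [h0]))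
  have hb0 : (0 : ℝ) ≤ b := Nat.cast_nonneg _
  have hb3 : x ^ ε / 34 ≤ (b : ℝ) + 1 := A15 hq0 hb0 hK1 H2 ha3 hb2R
  have hb4 : (1 : ℝ) ≤ b := by linarith only [hb3, hxε]
  have hb5 : 1 ≤ b := by exact_mod_cast hb4
  have hb6 : (a : ℝ) ≤ 34 * K * b := A5 hb2R hb4 hK4
  have hb7 : x ^ ε / 68 ≤ b := by linarith only [hb3, hxε]
  have hb8 : x ^ (ε / 4) ≤ b := by
    have e1 : x ^ ε = x ^ (ε / 4) * x ^ (3 * ε / 4) := by
      rw [← Real.rpow_add hx0]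
      congr 1
      ring
    rw [e1] at hb7
    exact A16 (by positivity) D3 hb7
  -- `d`, `r`, `φ`
  obtain ⟨d, hd⟩ : ∃ d : ℕ, d = ⌊ε / 40 * x⌋₊ := ⟨_, rfl⟩
  have hd1 : (d : ℝ) ≤ ε / 40 * x := by rw [hd]; exact Nat.floor_le (by positivity)
  have hd2 : ε / 40 * x < d + 1 := by rw [hd]; exact Nat.lt_floor_add_one _
  obtain ⟨p, hp⟩ : ∃ p : ℝ, p = c / x := ⟨_, rfl⟩
  have hp0 : 0 < p := by rw [hp]; positivity
  have hp1 : p ≤ 1 := by rw [hp, div_le_one hx0]; exact hcx1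
  have hpx : p * x = c := by rw [hp]; exact div_mul_cancel₀ _ hx0.ne'
  obtain ⟨u, hu⟩ : ∃ u : ℝ, u = d * p := ⟨_, rfl⟩
  obtain ⟨w, hw⟩ : ∃ w : ℝ, w = ε / 40 * c := ⟨_, rfl⟩
  rw [← hw] at C1
  obtain ⟨hu1, hu2⟩ := A13 hp0 hp1 hpx hd1 hd2 hu hw
  have hwc : w ≤ c := by
    rw [hw]
    exact mul_le_of_le_one_left hc.le (by linarith only [h1])
  have hu400 : 400 ≤ u := by linarith only [hu2, C1]
  have hu0 : 0 ≤ u := by linarith only [hu400]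
  obtain ⟨r, hr⟩ : ∃ r : ℕ, r = ⌊u / 2⌋₊ := ⟨_, rfl⟩
  have hr1 : (r : ℝ) ≤ u / 2 := by rw [hr]; exact Nat.floor_le (by linarith only [hu0])
  have hr2 : u / 2 < r + 1 := by rw [hr]; exact Nat.lt_floor_add_one _
  have hr3 : u / 3 ≤ r := by linarith only [hr2, hu400]
  have hr4 : (1 : ℝ) ≤ r := by linarith only [hr3, hu400]
  obtain ⟨φ, hφ⟩ : ∃ φ : ℕ, φ = ⌊u * r / 2⌋₊ := ⟨_, rfl⟩
  have hφ1 : (φ : ℝ) ≤ u * r / 2 := by rw [hφ]; exact Nat.floor_le (by positivity)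
  have hφ2 : u * r / 2 < φ + 1 := by rw [hφ]; exact Nat.lt_floor_add_one _
  have hur1 : u * r ≤ w ^ 2 / 2 := A6 hr1 hu0 hu1
  have hur2 : u ^ 2 / 3 ≤ u * r := by
    have e1 : u * (u / 3) ≤ u * r := mul_le_mul_of_nonneg_left hr3 hu0
    linarith only [e1]
  have hu3 : (w - 1) ^ 2 ≤ u ^ 2 := pow_le_pow_left₀ (by linarith only [C1]) hu2 2
  have hφ3 : w ^ 2 / 16 ≤ φ := A3 (by linarith only [hu3, hur2]) hφ2 C1
  have hw401 : 401 ^ 2 ≤ w ^ 2 := pow_le_pow_left₀ (by norm_num) C1 2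
  have hφ4 : (1 : ℝ) ≤ φ := by linarith only [hφ3, hw401]
  have hφ0 : (0 : ℝ) ≤ φ := by linarith only [hφ4]
  have hw2 : w ^ 2 ≤ c ^ 2 := pow_le_pow_left₀ (by linarith only [C1]) hwc 2
  have hφ5 : (φ : ℝ) ≤ c ^ 2 := by linarith only [hφ1, hur1, hw2, sq_nonneg w]
  -- `h`
  obtain ⟨h, hh⟩ : ∃ h : ℕ, h = n / 2 := ⟨_, rfl⟩
  have hh1 : 2 * h ≤ n := by omega
  have hh2 : n ≤ 2 * h + 1 := by omega
  have hd3 : (d : ℝ) ≤ x / 80 := by
    have : ε / 40 * x ≤ 1 / 80 * x := mul_le_mul_of_nonneg_right (by linarith only [h1]) hx0.le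
    linarith only [this, hd1]
  have hadn : 2 * a + 4 * d + 1 ≤ n := by
    have : 2 * (a : ℝ) + 4 * d + 1 ≤ x := by linarith only [ha6, hd3, D1]
    rw [hx] at this
    exact_mod_cast this
  have hpa : p * a ≤ c * ρ := by
    have := mul_le_mul_of_nonneg_left ha1 hp0.le
    rw [← mul_assoc, hpx] at this
    exact this
  have hcρ : c * ρ ≤ 1 / 10 := by
    refine le_trans ?_ C3
    have : c ≤ c ^ 2 := by
      have := mul_le_mul_of_nonneg_left hc1 hc.le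
      linarith only [this]
    exact mul_le_mul_of_nonneg_right this hρ0.le
  obtain ⟨L, J, hL1, hLJ, hLp1, hLp2, hg1, hg2⟩ := hG ε c n a d h h0 h1 hc1
    (by rw [← hx]; exact hcx) hh1 hh2 (by omega) (by rw [← hx, ← hp]; exact hpa.trans hcρ)
    (by rw [← hx]; exact hd1)
  rw [← hx, ← hp] at hLp1 hLp2 hg1 hg2
  rw [← hp]
  obtain ⟨G, hGd⟩ : ∃ G : ℝ, G = (1 + (1 - 2 * (ε / 40)) * (L * p)) ^ J := ⟨_, rfl⟩
  rw [← hGd] at hg1 hg2
  have hG1 : 1 ≤ G := by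
    rw [hGd]
    refine one_le_pow₀ ?_
    have e1 : 0 ≤ (L : ℝ) * p := by positivity
    have e2 : 0 ≤ 1 - 2 * (ε / 40) := by linarith only [h1]
    have := mul_nonneg e2 e1
    linarith only [this]
  have hG0 : 0 ≤ G := by linarith only [hG1]
  have hbφ : ((b * φ : ℕ) : ℝ) = (b : ℝ) * φ := by push_cast; ring
  have hbφ1 : 1 ≤ (b : ℝ) * φ := one_le_mul_of_one_le_of_one_le hb4 hφ4
  obtain ⟨N, hNd⟩ : ∃ N : ℕ, N = ⌊(b : ℝ) * φ * G⌋₊ := ⟨_, rfl⟩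
  have hN0 : 1 ≤ (b : ℝ) * φ * G := one_le_mul_of_one_le_of_one_le hbφ1 hG1
  have hN1 : (N : ℝ) ≤ b * φ * G := by rw [hNd]; exact Nat.floor_le (by linarith only [hN0])
  have hN2 : (b : ℝ) * φ * G < N + 1 := by rw [hNd]; exact Nat.lt_floor_add_one _
  have hN3 : (1 : ℝ) ≤ N := by
    have : 1 ≤ N := by
      rw [hNd]
      exact Nat.le_floor (by exact_mod_cast hN0)
    exact_mod_cast this
  have hN4 : (b : ℝ) * φ * G / 2 ≤ N := by linarith only [hN2, hN3]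
  -- `p b`
  have hpb1 : p * b * q ≤ c * ρ := A11 hp0 hb0 (by linarith only [hK4]) hb1R hpa hK3
  have hpb2 : c * ρ ≤ 68 * (p * b) * q := A12 hp0 hb0 hpx ha3 hb6 hK1
  have hur : (d : ℝ) * r * p = u * r := by rw [hu]; ring
  refine ⟨a, d, r, φ, b, N, L, J, h, K, by exact_mod_cast ha5, by exact_mod_cast hr4,
    by exact_mod_cast hφ4, hb5, by omega, by omega, hh1, hLJ, ?_, ?_, ?_, ?_, ?_, ?_, ?_, ?_, ?_, ?_,
    ?_, ?_, ?_, ?_, ?_⟩
  · rw [← hu]; linarith only [hr1]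
  · rw [hur]; linarith only [hφ1]
  · rw [← hu]; exact hu400
  · exact A14 hc.le hρ0.le (by linarith only [hr4]) hpa hr1 hu0 hu1 hwc C3
  · rw [hbφ, ← hGd]
    exact A8 h1 hc hρ hq hq0 hφ0 hG0 hpb1 hφ5 hg2 C5
  · rw [hbφ, ← hGd]; exact hN1
  · rw [← hq]; exact hK2
  · have e2 : 0 < K * b := Nat.mul_pos hK5 hb5
    have e1 : 16 * K * b < 17 * K * b := by
      have e3 : 17 * K * b = 16 * K * b + K * b := by ring
      omega
    omega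
  · exact ha4
  · exact hb8
  · rw [hur]
    linarith only [hur1, hw2, sq_nonneg w]
  · -- `J ≤ n`
    have e1 : J ≤ n := by
      have : J * 1 ≤ J * L := Nat.mul_le_mul_left J hL1
      omega
    rw [hx]
    exact_mod_cast e1
  · refine choose_le a b c q hb5 ?_ hq0.le ?_
    · refine hb6.trans ?_
      have := mul_le_mul_of_nonneg_right hK1 hb0
      linarith only [this]
    · rw [hq, Real.exp_le_exp]
      exact mul_le_of_le_one_left hc.le (by linarith only [h0])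
  · rw [hbφ]
    exact A10 h0 hc1 hb0 hφ0 hw hLp1 hφ3 C4
  · exact A9 hc1 hρ hq hq0 hp0 hb0 hφ4 hG0 hN4 hpb2 hg1 C6

end Pool.Agent.H52.RL.Num1
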